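import Mathlib
import Pool.Agent.V11141.DPDef
import Pool.Agent.V11141.DPLib

/-!
# For every `k ≥ 3` there is a graph with DP-chromatic number `k` that is not partially DP-nice
-/

namespace Pool.Agent.Results.MP_a5c736_co.NotNice

open Pool.Agent.V11141.DP

/-- `G` is partially DP-nice: `α_t^DP(G) ≥ t |V(G)| / χ_DP(G)` for all `1 ≤ t ≤ χ_DP(G)`. -/
def PartiallyNice {V : Type} (G : SimpleGraph V) : Prop :=
  ∀ t : ℕ, 1 ≤ t → t ≤ chiDP G →
    (t : ℚ) * (Nat.card V : ℚ) / (chiDP G : ℚ) ≤ (alphaDP t G : ℚ)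

/-- vertex set: two cliques and a pair -/
abbrev Vx (j : ℕ) := Fin (j + 1) ⊕ (Fin j ⊕ Bool)

/-- adjacency -/
def adj (j : ℕ) : Vx j → Vx j → Prop
  | Sum.inl a, Sum.inl a' => a ≠ a'
  | Sum.inl _, Sum.inr (Sum.inl _) => False
  | Sum.inr (Sum.inl _), Sum.inl _ => False
  | Sum.inl _, Sum.inr (Sum.inr _) => True
  | Sum.inr (Sum.inr _), Sum.inl _ => True
  | Sum.inr (Sum.inl b), Sum.inr (Sum.inl b') => b ≠ b'
  | Sum.inr (Sum.inl _), Sum.inr (Sum.inr _) => True
  | Sum.inr (Sum.inr _), Sum.inr (Sum.inl _) => True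
  | Sum.inr (Sum.inr _), Sum.inr (Sum.inr _) => False

/-- the graph -/
def Gr (j : ℕ) : SimpleGraph (Vx j) where
  Adj := adj j
  symm := ⟨by
    rintro (a | b | p) (a' | b' | p') h
    · exact Ne.symm h
    · exact h
    · exact h
    · exact h
    · exact Ne.symm h
    · exact h
    · exact h
    · exact h
    · exact h⟩
  loopless := ⟨by
    rintro (a | b | p) h
    · exact h rfl
    · exact h rfl
    · exact h⟩

/-- shifts -/
def sh (j : ℕ) : Vx j → Vx j → Equiv.Perm (Fin (j + 1))
  | Sum.inr (Sum.inl _), Sum.inr (Sum.inr false) => Equiv.addRight 1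
  | Sum.inr (Sum.inr false), Sum.inr (Sum.inl _) => (Equiv.addRight 1)⁻¹
  | _, _ => 1

theorem sh_inv (j : ℕ) : ∀ u v, sh j v u = (sh j u v)⁻¹ := by
  rintro (a | b | _ | _) (a' | b' | _ | _) <;> simp [sh]

/-- ordering -/
def rk (j : ℕ) : Vx j → ℕ
  | Sum.inl a => a
  | Sum.inr (Sum.inr true) => j + 1
  | Sum.inr (Sum.inr false) => j + 2
  | Sum.inr (Sum.inl b) => j + 3 + b

theorem rk_inj (j : ℕ) : ∀ u v, rk j u = rk j v → u = v := by
  rintro (a | b | _ | _) (a' | b' | _ | _) h
  all_goals simp only [rk] at h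
  all_goals first
    | rfl
    | (exfalso; omega)
    | (have := Fin.ext (show (a : ℕ) = a' by omega); rw [this])
    | (have := Fin.ext (show (b : ℕ) = b' by omega); rw [this])

/-- earlier neighbours -/
def Pn (j : ℕ) : Vx j → Finset (Vx j)
  | Sum.inl _ => Finset.univ.image Sum.inl
  | Sum.inr (Sum.inr _) => Finset.univ.image Sum.inl
  | Sum.inr (Sum.inl b) => (Finset.univ.image fun p => Sum.inr (Sum.inr p)) ∪
      ((Finset.univ.erase b).image fun b' => Sum.inr (Sum.inl b'))

theorem Pn_spec (j : ℕ) : ∀ u v, (Gr j).Adj u v → rk j u < rk j v → u ∈ Pn j v := by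
  rintro (a | b | p) (a' | b' | p') h hr
  · simp [Pn]
  · exact h.elim
  · simp [Pn]
  · exact h.elim
  · have h' : b ≠ b' := h
    simp [Pn, h']
  · exfalso
    rcases p' with _ | _ <;> simp only [rk] at hr <;> omega
  · exfalso
    rcases p with _ | _ <;> simp only [rk] at hr <;> omega
  · simp [Pn]
  · exact h.elim

theorem Pn_card (j : ℕ) : ∀ v, (Pn j v).card < j + 2 := by
  have h1 : (Finset.univ.image (Sum.inl : Fin (j + 1) → Vx j)).card ≤ j + 1 := by
    refine Finset.card_image_le.trans ?_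
    rw [Finset.card_univ, Fintype.card_fin]
  rintro (a | b | p)
  · exact Nat.lt_succ_of_le h1
  · have hb : 0 < j := b.pos
    refine Nat.lt_succ_of_le ((Finset.card_union_le _ _).trans ?_)
    have h2 : (Finset.univ.image fun p : Bool => (Sum.inr (Sum.inr p) : Vx j)).card ≤ 2 :=
      Finset.card_image_le.trans (by simp)
    have h3 : ((Finset.univ.erase b).image fun b' => (Sum.inr (Sum.inl b') : Vx j)).card ≤
        j - 1 := by
      refine Finset.card_image_le.trans ?_
      rw [Finset.card_erase_of_mem (Finset.mem_univ _), Finset.card_univ, Fintype.card_fin]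
    omega
  · exact Nat.lt_succ_of_le h1

theorem card_Vx (j : ℕ) : Nat.card (Vx j) = 2 * j + 3 := by
  rw [Nat.card_eq_fintype_card]
  simp only [Fintype.card_sum, Fintype.card_fin, Fintype.card_bool]
  ring

theorem chiDP_Gr (j : ℕ) : chiDP (Gr j) = j + 2 := by
  have hmem : (j + 2) ∈ {m : ℕ | ∀ (W : Type) (_ : Finite W) (H : SimpleGraph W)
      (L : Vx j → Set W), IsCover (Gr j) H L → IsFold m L →
      ∃ I : Finset W, H.IsIndepSet (I : Set W) ∧ I.card = Nat.card (Vx j)} := by
    intro W _ H L hc hm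
    exact greedy hc hm (rk j) (Pn j) (Pn_spec j) (rk_inj j) (Pn_card j)
  unfold chiDP
  apply le_antisymm
  · exact Nat.sInf_le hmem
  · by_contra hlt
    push Not at hlt
    have hin := Nat.sInf_mem ⟨_, hmem⟩
    refine not_small (Gr j) (j + 2)
      (fun i => if h : (i : ℕ) < j + 1 then Sum.inl ⟨i, h⟩ else Sum.inr (Sum.inr true))
      ?_ _ hlt hin
    intro a b hab
    by_cases ha : (a : ℕ) < j + 1 <;> by_cases hb : (b : ℕ) < j + 1
    · rw [dif_pos ha, dif_pos hb]
      intro h
      exact hab (Fin.ext (by simpa using h))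
    · rw [dif_pos ha, dif_neg hb]
      exact trivial
    · rw [dif_neg ha, dif_pos hb]
      exact trivial
    · exfalso
      apply hab
      apply Fin.ext
      have := a.2
      have := b.2
      omega

/-- an injective map from `j + 1` elements into `Fin (j + 1)` avoiding two values is impossible:
if `g : Fin n → Fin (j+1)` is injective and avoids `p` and `q` and `n = j`, then `p = q` -/
theorem avoid_eq {j : ℕ} (T : Finset (Fin (j + 1))) (hT : T.card = j) (p q : Fin (j + 1))
    (hp : p ∉ T) (hq : q ∉ T) : p = q := by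
  by_contra hne
  have h1 : (insert p (insert q T)).card = j + 2 := by
    rw [Finset.card_insert_of_notMem, Finset.card_insert_of_notMem hq, hT]
    rw [Finset.mem_insert]
    tauto
  have h2 := Finset.card_le_univ (insert p (insert q T))
  rw [h1, Fintype.card_fin] at h2
  omega

theorem no_large (j : ℕ) (hj : 1 ≤ j) (S : Finset (Vx j)) (c : Vx j → Fin (j + 1))
    (hc : ∀ u ∈ S, ∀ v ∈ S, (Gr j).Adj u v → c v ≠ sh j u v (c u)) :
    S.card ≤ 2 * j + 1 := by
  classical
  by_contra hS
  push Not at hS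
  have hcompl : Sᶜ.card ≤ 1 := by
    rw [Finset.card_compl]
    have := card_Vx j
    rw [Nat.card_eq_fintype_card] at this
    omega
  -- at most one vertex is missing
  have hmiss : ∀ u v, u ∉ S → v ∉ S → u = v := by
    intro u v hu hv
    exact Finset.card_le_one.mp hcompl u (by simpa using hu) v (by simpa using hv)
  set x : Vx j := Sum.inr (Sum.inr true) with hx
  set y : Vx j := Sum.inr (Sum.inr false) with hy
  -- the first clique must miss a vertex
  have hfirst : ∀ z : Vx j, (z = x ∨ z = y) → z ∈ S → ∃ a : Fin (j + 1), Sum.inl a ∉ S := by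
    intro z hz hzS
    by_contra hcon
    push Not at hcon
    have hinj : Function.Injective fun a : Fin (j + 1) => c (Sum.inl a) := by
      intro a a' h
      by_contra hne
      have := hc _ (hcon a) _ (hcon a') (show (Gr j).Adj (Sum.inl a) (Sum.inl a') from hne)
      exact this (by simpa [sh] using h.symm)
    have hsurj := Finite.surjective_of_injective hinj
    obtain ⟨a, ha⟩ := hsurj (c z)
    rcases hz with rfl | rfl
    · have := hc _ (hcon a) _ hzS (show (Gr j).Adj (Sum.inl a) x from trivial)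
      exact this (by simpa [sh, hx] using ha.symm)
    · have := hc _ (hcon a) _ hzS (show (Gr j).Adj (Sum.inl a) y from trivial)
      exact this (by simpa [sh, hy] using ha.symm)
  have hxy : x ≠ y := by simp [hx, hy]
  obtain ⟨a0, ha0⟩ : ∃ a : Fin (j + 1), Sum.inl a ∉ S := by
    by_cases hxS : x ∈ S
    · exact hfirst x (Or.inl rfl) hxS
    · have hyS : y ∈ S := by
        by_contra hyS
        exact hxy (hmiss x y hxS hyS)
      exact hfirst y (Or.inr rfl) hyS
  have hin : ∀ u, u ≠ Sum.inl a0 → u ∈ S := by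
    intro u hu
    by_contra h
    exact hu (hmiss u _ h ha0)
  have hxS := hin x (by simp [hx])
  have hyS := hin y (by simp [hy])
  -- first clique minus `a0`
  let T1 : Finset (Fin (j + 1)) := (Finset.univ.erase a0).image fun a => c (Sum.inl a)
  have hT1 : T1.card = j := by
    rw [Finset.card_image_of_injOn, Finset.card_erase_of_mem (Finset.mem_univ _),
      Finset.card_univ, Fintype.card_fin, Nat.add_sub_cancel]
    intro a ha a' ha' h
    by_contra hne
    have h1 : a ≠ a0 := by simpa using ha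
    have h2 : a' ≠ a0 := by simpa using ha'
    have := hc _ (hin (Sum.inl a) (by simpa using h1)) _ (hin (Sum.inl a') (by simpa using h2))
      (show (Gr j).Adj (Sum.inl a) (Sum.inl a') from hne)
    exact this (by simpa [sh] using h.symm)
  have hx1 : c x ∉ T1 := by
    intro h
    rw [Finset.mem_image] at h
    obtain ⟨a, ha, hac⟩ := h
    have h1 : a ≠ a0 := by simpa using ha
    have := hc _ (hin (Sum.inl a) (by simpa using h1)) _ hxS
      (show (Gr j).Adj (Sum.inl a) x from trivial)
    exact this (by simpa [sh, hx] using hac.symm)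
  have hy1 : c y ∉ T1 := by
    intro h
    rw [Finset.mem_image] at h
    obtain ⟨a, ha, hac⟩ := h
    have h1 : a ≠ a0 := by simpa using ha
    have := hc _ (hin (Sum.inl a) (by simpa using h1)) _ hyS
      (show (Gr j).Adj (Sum.inl a) y from trivial)
    exact this (by simpa [sh, hy] using hac.symm)
  have hcxy : c x = c y := avoid_eq T1 hT1 _ _ hx1 hy1
  -- second clique
  let T2 : Finset (Fin (j + 1)) := Finset.univ.image fun b : Fin j => c (Sum.inr (Sum.inl b))
  have hT2 : T2.card = j := by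
    rw [Finset.card_image_of_injective, Finset.card_univ, Fintype.card_fin]
    intro b b' h
    by_contra hne
    have := hc _ (hin (Sum.inr (Sum.inl b)) (by simp)) _ (hin (Sum.inr (Sum.inl b')) (by simp))
      (show (Gr j).Adj (Sum.inr (Sum.inl b)) (Sum.inr (Sum.inl b')) from hne)
    exact this (by simpa [sh] using h.symm)
  have hx2 : c x ∉ T2 := by
    intro h
    rw [Finset.mem_image] at h
    obtain ⟨b, -, hbc⟩ := h
    have := hc _ (hin (Sum.inr (Sum.inl b)) (by simp)) _ hxS
      (show (Gr j).Adj (Sum.inr (Sum.inl b)) x from trivial)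
    exact this (by simpa [sh, hx] using hbc.symm)
  have hy2 : c y - 1 ∉ T2 := by
    intro h
    rw [Finset.mem_image] at h
    obtain ⟨b, -, hbc⟩ := h
    have := hc _ (hin (Sum.inr (Sum.inl b)) (by simp)) _ hyS
      (show (Gr j).Adj (Sum.inr (Sum.inl b)) y from trivial)
    apply this
    have h2 : sh j (Sum.inr (Sum.inl b)) y (c (Sum.inr (Sum.inl b))) =
        c (Sum.inr (Sum.inl b)) + 1 := rfl
    rw [h2, hbc, sub_add_cancel]
  have hfin := avoid_eq T2 hT2 _ _ hx2 hy2
  rw [hcxy] at hfin
  have h10 : (1 : Fin (j + 1)) = 0 := by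
    have h3 : c y - (c y - 1) = c y - c y := by rw [← hfin]
    rw [sub_sub_cancel, sub_self] at h3
    exact h3
  have h11 := congrArg Fin.val h10
  obtain ⟨i, rfl⟩ : ∃ i, j = i + 1 := ⟨j - 1, by omega⟩
  simp at h11

theorem alpha_Gr (j : ℕ) (hj : 1 ≤ j) : alphaDP (j + 1) (Gr j) ≤ 2 * j + 1 := by
  have hle : alphaDP (j + 1) (Gr j) ≤ (permH (Gr j) (sh j) (sh_inv j)).indepNum :=
    Nat.sInf_le ⟨_, inferInstance, _, _, perm_cover (Gr j) (sh j) (sh_inv j),
      perm_fold (Vx j) (j + 1), rfl⟩
  refine hle.trans ?_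
  obtain ⟨I, hI⟩ := (permH (Gr j) (sh j) (sh_inv j)).exists_isNIndepSet_indepNum
  obtain ⟨S, c, hS, hc⟩ := perm_indep (Gr j) (sh j) (sh_inv j) I hI.isIndepSet
  rw [← hI.card_eq, ← hS]
  exact no_large j hj S c hc

/-- For every `k ≥ 3` there is a (nonempty, finite) graph `G` with `χ_DP(G) = k` that is not
partially DP-nice. -/
theorem result : ∀ k : ℕ, 3 ≤ k → ∃ (V : Type) (_ : Fintype V) (_ : Nonempty V)
    (G : SimpleGraph V), chiDP G = k ∧ ¬ PartiallyNice G := by
  intro k hk
  obtain ⟨j, rfl⟩ : ∃ j, k = j + 2 := ⟨k - 2, by omega⟩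
  refine ⟨Vx j, inferInstance, ⟨Sum.inl 0⟩, Gr j, chiDP_Gr j, fun h => ?_⟩
  have h1 := h (j + 1) (by omega) (by rw [chiDP_Gr]; omega)
  have h2 := alpha_Gr j (by omega)
  rw [chiDP_Gr, card_Vx] at h1
  have h3 : (alphaDP (j + 1) (Gr j) : ℚ) ≤ ((2 * j + 1 : ℕ) : ℚ) := by exact_mod_cast h2
  have h4 := h1.trans h3
  rw [div_le_iff₀ (by positivity)] at h4
  have h5 : (j + 1) * (2 * j + 3) ≤ (2 * j + 1) * (j + 2) := by exact_mod_cast h4
  nlinarith

end Pool.Agent.Results.MP_a5c736_co.NotNice
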